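import Pool.Agent.Hhelper25.CalderonSum
import Pool.Agent.Hhelper25.Covariance

/-!
Calderon's formula fails for orthonormal wavelets with the dilation `A = diag(1/a, b)`
and the lattice `ℤ²`, for all integers `a, b ≥ 2`.
-/

set_option autoImplicit false

namespace Pool.Agent.Results.MP_4002ad_an.CalderonFails

open MeasureTheory Set FourierTransform
open Pool.Agent.Hhelper25.Plane Pool.Agent.Hhelper25.Basis1D Pool.Agent.Hhelper25.GenOp
open Pool.Agent.Hhelper25.Covariance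
open scoped ENNReal RealInnerProductSpace

noncomputable section

/-- the plane -/
abbrev E : Type := EuclideanSpace ℝ (Fin 2)

/-- coordinates -/
def me : E ≃ᵐ ℝ × ℝ := (MeasurableEquiv.toLp 2 (Fin 2 → ℝ)).symm.trans MeasurableEquiv.finTwoArrow

lemma me_apply (x : E) : me x = (x 0, x 1) := rfl

lemma me_mp : MeasurePreserving me (volume : Measure E) (volume : Measure (ℝ × ℝ)) :=
  (volume_preserving_finTwoArrow ℝ).comp (EuclideanSpace.volume_preserving_symm_measurableEquiv_toLp (Fin 2))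

/-- diagonal map of the plane -/
def Lm (u v : ℝ) (hu : u ≠ 0) (hv : v ≠ 0) : E ≃L[ℝ] E :=
  LinearEquiv.toContinuousLinearEquiv
    { toFun := fun x => WithLp.toLp 2 ![u * x 0, v * x 1]
      invFun := fun x => WithLp.toLp 2 ![u⁻¹ * x 0, v⁻¹ * x 1]
      map_add' := by
        intro x y
        ext i
        fin_cases i <;> simp <;> ring
      map_smul' := by
        intro c x
        ext i
        fin_cases i <;> simp <;> ring
      left_inv := by
        intro x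
        ext i
        fin_cases i <;> simp [hu, hv]
      right_inv := by
        intro x
        ext i
        fin_cases i <;> simp [hu, hv] }

lemma Lm_apply (u v : ℝ) (hu : u ≠ 0) (hv : v ≠ 0) (x : E) :
    Lm u v hu hv x = WithLp.toLp 2 ![u * x 0, v * x 1] := rfl

lemma Lm_symm_apply (u v : ℝ) (hu : u ≠ 0) (hv : v ≠ 0) (x : E) :
    (Lm u v hu hv).symm x = WithLp.toLp 2 ![u⁻¹ * x 0, v⁻¹ * x 1] := rfl

lemma Lm_symmetric (u v : ℝ) (hu : u ≠ 0) (hv : v ≠ 0) (x y : E) :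
    ⟪Lm u v hu hv x, y⟫ = ⟪x, Lm u v hu hv y⟫ := by
  rw [Lm_apply, Lm_apply]
  simp [PiLp.inner_apply, Fin.sum_univ_two]
  ring

lemma Lm_det (u v : ℝ) (hu : u ≠ 0) (hv : v ≠ 0) :
    LinearMap.det (Lm u v hu hv : E →ₗ[ℝ] E) = u * v := by
  have h1 : (Lm u v hu hv : E →ₗ[ℝ] E) = Matrix.toLpLin 2 2 (Matrix.diagonal ![u, v]) := by
    ext x i
    fin_cases i <;> simp [Lm_apply, Matrix.toLpLin_apply]
  rw [h1, Matrix.toLpLin_eq_toLin, LinearMap.det_toLin, Matrix.det_diagonal]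
  simp [Fin.prod_univ_two]

lemma diag_zpow (u v : ℝ) (hu : u ≠ 0) (hv : v ≠ 0) (j : ℤ) :
    (Matrix.diagonal ![u, v]) ^ j = Matrix.diagonal ![u ^ j, v ^ j] := by
  have hn : ∀ n : ℕ, (Matrix.diagonal ![u, v]) ^ n = Matrix.diagonal ![u ^ n, v ^ n] := by
    intro n
    rw [Matrix.diagonal_pow]
    congr 1
    funext i
    fin_cases i <;> simp
  rcases j with n | n
  · rw [Int.ofNat_eq_natCast, zpow_natCast, hn, zpow_natCast, zpow_natCast]
  · rw [zpow_negSucc, hn]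
    apply Matrix.inv_eq_right_inv
    rw [Matrix.diagonal_mul_diagonal, zpow_negSucc, zpow_negSucc]
    rw [← Matrix.diagonal_one]
    congr 1
    funext i
    fin_cases i
    · simp [pow_ne_zero (n + 1) hu]
    · simp [pow_ne_zero (n + 1) hv]

section main

variable (a b : ℕ) (ha : 1 < a) (hb : 1 < b)

include ha in
lemma a_pos : (0 : ℝ) < a := by exact_mod_cast (by omega : 0 < a)

/-- the map `A ^ j` -/
def Lj (j : ℤ) : E ≃L[ℝ] E :=
  Lm (((a : ℝ)⁻¹) ^ j) ((b : ℝ) ^ j) (zpow_ne_zero _ (inv_ne_zero (a_pos a ha).ne'))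
    (zpow_ne_zero _ (a_pos b hb).ne')

lemma dt_Lj (j : ℤ) : dt (Lj a b ha hb j) = ((b : ℝ) / a) ^ j := by
  have ha0 := a_pos a ha
  have hb0 := a_pos b hb
  unfold dt Lj
  rw [Lm_det, abs_of_pos (by positivity), inv_zpow, div_zpow]
  field_simp

include ha hb in
lemma psi_memLp : MemLp (fun x : E => psiHat a b (me x)) 2 (volume : Measure E) := by
  have h1 : psiHat a b = G a b 0 0 0 := by
    funext z
    obtain ⟨x, y⟩ := z
    rw [G_eq a b ha hb]
    simp [ee_zero]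
  rw [h1]
  exact (G_memLp a b ha hb 0 0 0).comp_measurePreserving me_mp

/-- Fourier transform of the wavelet in `L²` -/
def psiF : Lp ℂ 2 (volume : Measure E) := (psi_memLp a b ha hb).toLp _

/-- the wavelet -/
def psi : Lp ℂ 2 (volume : Measure E) := 𝓕⁻ (psiF a b ha hb)

lemma fourier_psi : 𝓕 (psi a b ha hb) = psiF a b ha hb := by
  unfold psi
  exact fourier_fourierInv_eq _

/-- lattice point -/
def lat (k : Fin 2 → ℤ) : E := WithLp.toLp 2 (fun i => (k i : ℝ))

/-- the affine system -/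
def Phi (p : ℤ × (Fin 2 → ℤ)) : Lp ℂ 2 (volume : Measure E) :=
  (dataX (Lj a b ha hb p.1) (lat p.2)).op (psi a b ha hb)

lemma fourier_Phi (p : ℤ × (Fin 2 → ℤ)) :
    (𝓕 (Phi a b ha hb p) : Lp ℂ 2 (volume : Measure E)) =ᵐ[volume] fun ξ : E => G a b p.1 (p.2 0) (p.2 1) (me ξ) := by
  have ha0 := a_pos a ha
  have hb0 := a_pos b hb
  obtain ⟨j, k⟩ := p
  have h0 : (𝓕 (Phi a b ha hb (j, k)) : Lp ℂ 2 (volume : Measure E))
      = (dataF (Lj a b ha hb j) (lat k)).op (psiF a b ha hb) := by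
    change 𝓕 ((dataX (Lj a b ha hb j) (lat k)).op (psi a b ha hb)) = _
    rw [fourier_op (Lj a b ha hb j) (fun x y => Lm_symmetric _ _ _ _ x y), fourier_psi]
  rw [h0]
  have h1 : ∀ᵐ x ∂(volume : Measure E), psiF a b ha hb x = psiHat a b (me x) :=
    (psi_memLp a b ha hb).coeFn_toLp
  filter_upwards [(dataF (Lj a b ha hb j) (lat k)).op_coe (psiF a b ha hb),
    (dataF (Lj a b ha hb j) (lat k)).qmp.ae h1] with ξ h2 h3
  rw [h2, h3, me_apply ξ, G_eq a b ha hb]
  have e1 : (dataF (Lj a b ha hb j) (lat k)).φ ξ = WithLp.toLp 2 ![(a : ℝ) ^ j * ξ 0, (b : ℝ) ^ (-j) * ξ 1] := by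
    change (Lj a b ha hb j).symm ξ = _
    unfold Lj
    rw [Lm_symm_apply, ← inv_zpow, inv_inv, zpow_neg]
  have e2 : (dataF (Lj a b ha hb j) (lat k)).θ ξ = ((Real.sqrt (((b : ℝ) / a) ^ (-j)) : ℂ)
      * ee (-(k 0 * ((a : ℝ) ^ j * ξ 0) + k 1 * ((b : ℝ) ^ (-j) * ξ 1)))) := by
    change ((dt (Lj a b ha hb j) ^ (-(1 / 2) : ℝ) : ℝ) : ℂ) *
      Complex.exp (((-2 * Real.pi * ⟪lat k, (Lj a b ha hb j).symm ξ⟫ : ℝ) : ℂ) * Complex.I) = _
    have e3 : (Lj a b ha hb j).symm ξ = WithLp.toLp 2 ![(a : ℝ) ^ j * ξ 0, (b : ℝ) ^ (-j) * ξ 1] := e1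
    rw [e3, dt_Lj]
    congr 1
    · congr 1
      rw [Real.rpow_neg (by positivity), ← Real.sqrt_eq_rpow, zpow_neg, Real.sqrt_inv]
    · unfold ee
      congr 1
      congr 2
      simp [lat, PiLp.inner_apply, Fin.sum_univ_two]
      ring
  rw [e1, e2]
  rfl

lemma inner_eq (f g : Lp ℂ 2 (volume : Measure E)) :
    inner ℂ f g = ∫ x : E, (starRingEnd ℂ) (f x) * g x := by
  rw [L2.inner_def]
  refine integral_congr_ae (Filter.Eventually.of_forall (fun x => ?_))
  simp only [RCLike.inner_apply]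
  ring

lemma Phi_orthonormal : Orthonormal ℂ (Phi a b ha hb) := by
  rw [orthonormal_iff_ite]
  intro p p'
  rw [← Lp.inner_fourier_eq, inner_eq]
  have h1 : ∫ x : E, (starRingEnd ℂ) ((𝓕 (Phi a b ha hb p) : Lp ℂ 2 (volume : Measure E)) x) * (𝓕 (Phi a b ha hb p') : Lp ℂ 2 (volume : Measure E)) x
      = ∫ x : E, (fun z => (starRingEnd ℂ) (G a b p.1 (p.2 0) (p.2 1) z) * G a b p'.1 (p'.2 0) (p'.2 1) z) (me x) := by
    refine integral_congr_ae ?_
    filter_upwards [fourier_Phi a b ha hb p, fourier_Phi a b ha hb p'] with x h2 h3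
    rw [h2, h3]
  rw [h1, me_mp.integral_comp me.measurableEmbedding (fun z => (starRingEnd ℂ) (G a b p.1 (p.2 0) (p.2 1) z) * G a b p'.1 (p'.2 0) (p'.2 1) z), G_inner a b ha hb]
  have h4 : (p.1 = p'.1 ∧ p.2 0 = p'.2 0 ∧ p.2 1 = p'.2 1) ↔ p = p' := by
    constructor
    · rintro ⟨h5, h6, h7⟩
      refine Prod.ext h5 ?_
      funext i
      fin_cases i
      · exact h6
      · exact h7
    · rintro rfl
      exact ⟨rfl, rfl, rfl⟩
  exact if_congr h4 rfl rfl

lemma Phi_complete : (Submodule.span ℂ (Set.range (Phi a b ha hb))).topologicalClosure = ⊤ := by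
  rw [Submodule.topologicalClosure_eq_top_iff, Submodule.eq_bot_iff]
  intro f hf
  rw [Submodule.mem_orthogonal] at hf
  set g : Lp ℂ 2 (volume : Measure E) := 𝓕 f with hg
  have h1 : ∀ p : ℤ × (Fin 2 → ℤ), ∫ x : E, (starRingEnd ℂ) (G a b p.1 (p.2 0) (p.2 1) (me x)) * g x = 0 := by
    intro p
    have h2 := hf (Phi a b ha hb p) (Submodule.subset_span ⟨p, rfl⟩)
    rw [← Lp.inner_fourier_eq, inner_eq] at h2
    rw [← h2]
    refine integral_congr_ae ?_
    filter_upwards [fourier_Phi a b ha hb p] with x h3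
    rw [h3]
  have hgm : Measurable (g : E → ℂ) := (Lp.stronglyMeasurable g).measurable
  let F : ℝ × ℝ → ℂ := fun z => g (me.symm z)
  have hF : MemLp F 2 (volume : Measure (ℝ × ℝ)) :=
    (Lp.memLp g).comp_measurePreserving (me_mp.symm me)
  have h3 := G_complete a b ha hb F (hgm.comp me.symm.measurable) hF (by
    intro j k l
    have h4 := h1 (j, ![k, l])
    rw [← me_mp.integral_comp me.measurableEmbedding (fun z => (starRingEnd ℂ) (G a b j k l z) * F z)]
    simpa [F] using h4)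
  have h4 : ∀ᵐ x : E, g x = 0 := by
    have h5 := me_mp.quasiMeasurePreserving.ae h3
    filter_upwards [h5] with x hx
    simpa [F] using hx
  have h5 : g = 0 := by
    apply Lp.ext
    filter_upwards [h4, Lp.coeFn_zero ℂ 2 (volume : Measure E)] with x h6 h7
    rw [h6, h7]; rfl
  have h6 : ‖f‖ = 0 := by
    rw [← Lp.norm_fourier_eq f, ← hg, h5, norm_zero]
  exact norm_eq_zero.mp h6

end main

section general

variable (V : Type) [NormedAddCommGroup V] [InnerProductSpace ℝ V] [FiniteDimensional ℝ V]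
  [MeasurableSpace V] [BorelSpace V]

/-- the space `L²(V)` of complex functions for Lebesgue measure, `V` a finite-dimensional
Euclidean space -/
abbrev L2 : Type := Lp ℂ 2 (volume : Measure V)

variable {V}

/-- the value `f(x)` of (a representative of) `f ∈ L²(V)` -/
def ev (f : L2 V) (x : V) : ℂ := f x

/-- the Fourier transform of `f` in `L²(V)` -/
def ft (f : L2 V) : L2 V := 𝓕 f

/-- `Φ` is an orthonormal basis of `L²(V)`: an orthonormal family with dense span -/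
def IsONB {ι : Type} (Φ : ι → L2 V) : Prop :=
  Orthonormal ℂ Φ ∧ (Submodule.span ℂ (Set.range Φ)).topologicalClosure = ⊤

end general

/-- Euclidean space `ℝⁿ` -/
abbrev Rn (n : ℕ) : Type := EuclideanSpace ℝ (Fin n)

/-- the space `L²(ℝⁿ)` -/
abbrev L2n (n : ℕ) : Type := L2 (Rn n)

/-- the value `f(x)` of (a representative of) `f ∈ L²(ℝⁿ)` -/
def evn {n : ℕ} (f : L2n n) (x : Rn n) : ℂ := ev f x

/-- the Fourier transform of `f` in `L²(ℝⁿ)` -/
def ftn {n : ℕ} (f : L2n n) : L2n n := ft f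

/-- the vector `A ^ j x` -/
def powAct {n : ℕ} (A : Matrix (Fin n) (Fin n) ℝ) (j : ℤ) (x : Rn n) : Rn n :=
  WithLp.toLp 2 ((A ^ j).mulVec (WithLp.ofLp x))

/-- the function `x ↦ |det A| ^ (j / 2) ψ(A ^ j x - k)` -/
def affine {n : ℕ} (A : Matrix (Fin n) (Fin n) ℝ) (ψ : L2n n) (j : ℤ) (k : Fin n → ℤ)
    (x : Rn n) : ℂ :=
  ((|A.det| ^ ((j : ℝ) / 2) : ℝ) : ℂ) * evn ψ (powAct A j x - WithLp.toLp 2 (fun i => (k i : ℝ)))

/-- `ψ` is an orthonormal wavelet associated with `(A, ℤⁿ)`: the affine system is an orthonormal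
basis of `L²(ℝⁿ)` -/
def IsOrthonormalWavelet {n : ℕ} (A : Matrix (Fin n) (Fin n) ℝ) (ψ : L2n n) : Prop :=
  ∃ Φ : ℤ × (Fin n → ℤ) → L2n n, IsONB Φ ∧
    ∀ (j : ℤ) (k : Fin n → ℤ), ∀ᵐ x : Rn n, evn (Φ (j, k)) x = affine A ψ j k x

/-- the `j`-th term `|ψ^((Aᵀ) ^ j ξ)|²` of the Calderon sum, `ψ^` the Fourier transform in `L²` -/
def calderonTerm {n : ℕ} (A : Matrix (Fin n) (Fin n) ℝ) (ψ : L2n n) (ξ : Rn n) (j : ℤ) : ℝ :=
  ‖evn (ftn ψ) (powAct A.transpose j ξ)‖ ^ 2

/-- for almost every `ξ` the Calderon sum converges and is smaller than one -/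
def CalderonSumLtOne {n : ℕ} (A : Matrix (Fin n) (Fin n) ℝ) (ψ : L2n n) : Prop :=
  ∀ᵐ ξ : Rn n, Summable (calderonTerm A ψ ξ) ∧ ∑' j : ℤ, calderonTerm A ψ ξ j < 1

/-- the matrix `diag(1/a, b)` -/
def dil (a b : ℕ) : Matrix (Fin 2) (Fin 2) ℝ := Matrix.diagonal ![(a : ℝ)⁻¹, (b : ℝ)]

/-- For all integers `a, b ≥ 2`, the dilation `A = diag(1/a, b)` and the lattice `ℤ²` admit an
orthonormal wavelet `ψ` whose Calderon sum is smaller than one almost everywhere. -/
theorem result (a b : ℕ) (ha : 2 ≤ a) (hb : 2 ≤ b) :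
    ∃ ψ : L2n 2, IsOrthonormalWavelet (dil a b) ψ ∧ CalderonSumLtOne (dil a b) ψ := by
  have ha0 := a_pos a ha
  have hb0 := a_pos b hb
  set A : Matrix (Fin 2) (Fin 2) ℝ := dil a b with hA0
  have hA : A = Matrix.diagonal ![(a : ℝ)⁻¹, (b : ℝ)] := hA0
  refine ⟨psi a b ha hb, ⟨Phi a b ha hb, ⟨Phi_orthonormal a b ha hb, Phi_complete a b ha hb⟩, ?_⟩, ?_⟩
  · intro j k
    filter_upwards [(dataX (Lj a b ha hb j) (lat k)).op_coe (psi a b ha hb)] with x hx
    unfold evn ev Phi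
    rw [hx]
    have e1 : (dataX (Lj a b ha hb j) (lat k)).θ x = ((|A.det| ^ ((j : ℝ) / 2) : ℝ) : ℂ) := by
      change ((dt (Lj a b ha hb j) ^ (1 / 2 : ℝ) : ℝ) : ℂ) = _
      congr 1
      rw [dt_Lj, hA, Matrix.det_diagonal, Fin.prod_univ_two]
      simp only [Matrix.cons_val_zero, Matrix.cons_val_one]
      rw [abs_of_pos (by positivity), inv_mul_eq_div, ← Real.rpow_intCast, ← Real.rpow_mul (by positivity)]
      congr 1
      ring
    have e2 : (dataX (Lj a b ha hb j) (lat k)).φ x =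
        WithLp.toLp 2 ((A ^ j).mulVec (WithLp.ofLp x) - fun i => (k i : ℝ)) := by
      change Lj a b ha hb j x - lat k = _
      rw [hA, diag_zpow _ _ (inv_ne_zero ha0.ne') hb0.ne']
      unfold Lj lat
      rw [Lm_apply]
      ext i
      fin_cases i <;> simp
    rw [e1, e2]
    rfl
  · have h1 : ∀ᵐ ξ ∂(volume : Measure E), psiF a b ha hb ξ = psiHat a b (me ξ) :=
      (psi_memLp a b ha hb).coeFn_toLp
    have h2 : ∀ᵐ ξ ∂(volume : Measure E), ∀ j : ℤ,
        psiF a b ha hb (Lj a b ha hb j ξ) = psiHat a b (me (Lj a b ha hb j ξ)) := by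
      rw [ae_all_iff]
      intro j
      have h3 := (dataX (Lj a b ha hb j) 0).qmp.ae h1
      filter_upwards [h3] with ξ h4
      have h5 : (dataX (Lj a b ha hb j) 0).φ ξ = Lj a b ha hb j ξ := by
        change Lj a b ha hb j ξ - 0 = _
        rw [sub_zero]
      rwa [h5] at h4
    have h3 : ∀ᵐ ξ ∂(volume : Measure E), ξ 1 ≠ 0 := by
      have h4 : ∀ᵐ z : ℝ × ℝ, z.2 ≠ 0 := by
        have h5 : ∀ᵐ y : ℝ, y ≠ 0 := by simp [ae_iff]
        exact Measure.quasiMeasurePreserving_snd.ae h5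
      exact me_mp.quasiMeasurePreserving.ae h4
    unfold CalderonSumLtOne
    filter_upwards [h2, h3] with ξ h4 h5
    have h6 : ∀ j : ℤ, (𝓕 (psi a b ha hb) : Lp ℂ 2 (volume : Measure E)) (WithLp.toLp 2 ((A.transpose ^ j).mulVec (WithLp.ofLp ξ)))
        = psiHat a b ((a : ℝ) ^ (-j) * ξ 0, (b : ℝ) ^ j * ξ 1) := by
      intro j
      have e1 : WithLp.toLp 2 ((A.transpose ^ j).mulVec (WithLp.ofLp ξ)) = Lj a b ha hb j ξ := by
        rw [hA, Matrix.diagonal_transpose, diag_zpow _ _ (inv_ne_zero ha0.ne') hb0.ne']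
        unfold Lj
        rw [Lm_apply]
        ext i
        fin_cases i <;> simp [Matrix.mulVec_diagonal]
      rw [e1, fourier_psi, h4 j, me_apply]
      unfold Lj
      rw [Lm_apply]
      simp
    have h7 : calderonTerm A (psi a b ha hb) ξ
        = fun j : ℤ => ‖psiHat a b ((a : ℝ) ^ (-j) * ξ 0, (b : ℝ) ^ j * ξ 1)‖ ^ 2 := by
      funext j
      unfold calderonTerm powAct evn ev ftn ft
      rw [h6]
    rw [h7]
    exact calderon_lt a b ha hb (ξ 0) (ξ 1) h5

end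

end Pool.Agent.Results.MP_4002ad_an.CalderonFails
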